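import Mathlib

namespace Pool.Agent.Results.MP_580194_an.All

open Finset

theorem result (n N : ℕ) (hn : 1 ≤ n) (hN : n ≤ N) :
    ∃ x f : Fin N → Fin n → ℝ,
      (∀ i, ∑ j, |x i j| = 1) ∧ (∀ i, IsGreatest (Set.range fun j => |f i j|) 1) ∧
      (∀ i, ∑ j, f i j * x i j = 1) ∧
      ∀ v : Fin n → ℝ, ∑ i, (∑ j, f i j * v j) • x i = ((N : ℝ) / n) • v := by
  have hn0 : (0 : ℝ) < n := by exact_mod_cast hn
  obtain ⟨q, k, hq, hk, rfl⟩ : ∃ q k, 1 ≤ q ∧ k < n ∧ N = q * n + k :=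
    ⟨N / n, N % n, (Nat.one_le_div_iff hn).2 hN, Nat.mod_lt _ hn, by
      rw [mul_comm]; exact (Nat.div_add_mod N n).symm⟩
  have hq0 : (1 : ℝ) ≤ q := by exact_mod_cast hq
  have hk0 : (k : ℝ) ≤ n := by exact_mod_cast hk.le
  set c : ℝ := k / (q * n) with hc
  have hc0 : 0 ≤ c := by positivity
  have hc1 : c ≤ 1 := by rw [hc, div_le_one (by positivity)]; nlinarith
  let e : Fin (q * n + k) ≃ (Fin q × Fin n) ⊕ Fin k :=
    finSumFinEquiv.symm.trans (Equiv.sumCongr finProdFinEquiv.symm (Equiv.refl _))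
  let X : (Fin q × Fin n) ⊕ Fin k → Fin n → ℝ :=
    Sum.elim (fun p j => if j = p.2 then 1 else 0) fun _ _ => 1 / n
  let F : (Fin q × Fin n) ⊕ Fin k → Fin n → ℝ :=
    Sum.elim (fun p j => if j = p.2 then 1 else -c) fun _ _ => 1
  refine ⟨fun i => X (e i), fun i => F (e i), fun i => ?_, fun i => ?_, fun i => ?_, fun v => ?_⟩
  · dsimp only
    rcases e i with p | p
    · simp [X, apply_ite]
    · simp [X]; field_simp
  · dsimp only
    rcases e i with p | p
    · refine ⟨⟨p.2, by simp [F]⟩, ?_⟩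
      rintro _ ⟨j, rfl⟩
      by_cases h : j = p.2 <;> simp [F, h, abs_of_nonneg hc0, hc1]
    · exact ⟨⟨⟨0, hn⟩, by simp [F]⟩, by rintro _ ⟨j, rfl⟩; simp [F]⟩
  · dsimp only
    rcases e i with p | p
    · simp [X, F]
    · simp [X, F]; field_simp
  · rw [Equiv.sum_comp e fun p => (∑ j, F p j * v j) • X p]
    ext l
    have h1 : ∑ j, (if j = l then 1 else -c) * v j = (1 + c) * v l - c * ∑ j, v j := by
      rw [mul_sum, sum_congr rfl (g := fun j => (if j = l then (1 + c) * v j else 0) - c * v j)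
        fun j _ => by split_ifs <;> ring, sum_sub_distrib]
      simp
    simp only [Fintype.sum_sum_type, Fintype.sum_prod_type, X, F, Sum.elim_inl, Sum.elim_inr,
      Pi.add_apply, Finset.sum_apply, Pi.smul_apply, smul_eq_mul, mul_ite, mul_one, mul_zero,
      sum_ite_eq, mem_univ, if_true, h1, sum_const, card_univ, Fintype.card_fin, nsmul_eq_mul,
      one_mul]
    rw [hc]
    push_cast
    field_simp
    ring

end Pool.Agent.Results.MP_580194_an.All
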